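import Pool.Agent.FRC.FiveB

/-!
# MP_3e7e8f_al: complements of order 5 and the primes `r = 1 (mod 5)`

`result`: let `G = F⟨a⟩`, `F` normal, `a` of order 5 acting on `F` without nontrivial fixed points, such that every
two elements of `G` generate a finite subgroup, and either all these subgroups are soluble or `F` is an `r`-group for
some prime `r`.  Then finitely many elements of `F` whose orders are divisible only by primes `= 1 (mod 5)` generate a
finite subgroup; and `G` is locally finite as soon as, for every prime `r` with `r % 5 ≠ 1`, every finite set of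
elements of `F` of `r`-power order generates a finite subgroup.
-/

set_option autoImplicit false

namespace Pool.Agent.Results.MP_3e7e8f_al.OrderFivePrimes

open Pool.Agent.FRC

universe u

theorem result :
    ∀ (G : Type u) [Group G] (F : Subgroup G) (a : G),
      F.Normal →
      orderOf a = 5 →
      (∀ g : G, ∃ f ∈ F, ∃ k : ℕ, g = f * a ^ k) →
      (∀ f ∈ F, a * f * a⁻¹ = f → f = 1) →
      (∀ x y : G, ((Subgroup.closure ({x, y} : Set G) : Subgroup G) : Set G).Finite) →
      ((∀ x y : G, Group.IsSolvable (Subgroup.closure ({x, y} : Set G))) ∨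
        ∃ r : ℕ, r.Prime ∧ ∀ f ∈ F, ∃ n : ℕ, orderOf f = r ^ n) →
      (∀ s : Finset G, (∀ x ∈ s, x ∈ F ∧ ∀ r : ℕ, r.Prime → r ∣ orderOf x → r % 5 = 1) →
        ((Subgroup.closure (s : Set G) : Subgroup G) : Set G).Finite) ∧
      ((∀ r : ℕ, r.Prime → r % 5 ≠ 1 → ∀ s : Finset G, (∀ x ∈ s, x ∈ F ∧ ∃ n : ℕ, orderOf x = r ^ n) →
          ((Subgroup.closure (s : Set G) : Subgroup G) : Set G).Finite) →
        ∀ s : Finset G, ((Subgroup.closure (s : Set G) : Subgroup G) : Set G).Finite) := by
  intro G _ F a hFn ha hgen hfpf hbin hsol'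
  have hsol : ∀ x y : G, IsSolvable (Subgroup.closure ({x, y} : Set G)) := by
    rcases hsol' with h | ⟨r, hr, h⟩
    · exact h
    · refine sol_of_pgroup (r := r) hr hFn hgen hbin fun f hf => ?_
      obtain ⟨n, hn⟩ := h f hf
      exact ⟨n, by rw [← hn]; exact pow_orderOf_eq_one f⟩
  have H : HG 5 F a := hg_mk (by norm_num) hFn ha hgen hfpf hbin hsol
  refine ⟨fun s hs => ?_, fun h => ?_⟩
  · exact lf_of_primes H (fun r => r % 5 = 1) (fun r hr hr5 => lf_five H hr hr5) s
      (fun x hx => Subgroup.subset_closure (hs x hx))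
  · refine lf_top_of_kernel H (lf_of_primary H fun r hr => ?_)
    by_cases hr5 : r % 5 = 1
    · exact lf_five H hr hr5
    · intro s hs
      refine h r hr hr5 s fun x hx => ?_
      have h1 : x ∈ Prim H hr := by
        rw [← Prim_closure H hr]
        exact hs hx
      exact ⟨h1.1, (pe_iff hr).1 h1.2⟩

end Pool.Agent.Results.MP_3e7e8f_al.OrderFivePrimes
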