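import Pool.Agent.FRS.GlueP
import Pool.Agent.FRS.S27

/-!
# MP_3e7e8f_al: complements of order 7 and the primes `r = 1 (mod 7)`

`result`: let `G = F⟨a⟩`, `F` normal, `a` of order 7 acting on `F` without nontrivial fixed points, such that every
two elements of `G` generate a finite subgroup, and either all these subgroups are soluble or `F` is an `r`-group for
some prime `r`.  Then finitely many elements of `F` whose orders are divisible only by primes `= 1 (mod 7)` generate a
finite subgroup; and `G` is locally finite as soon as, for every prime `r` with `r % 7 ≠ 1`, every finite set of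
elements of `F` of `r`-power order generates a finite subgroup.
-/

set_option autoImplicit false

namespace Pool.Agent.Results.MP_3e7e8f_al.OrderSevenPrimes

open Pool.Agent.FRS

universe u

theorem result :
    ∀ (G : Type u) [Group G] (F : Subgroup G) (a : G),
      F.Normal →
      orderOf a = 7 →
      (∀ g : G, ∃ f ∈ F, ∃ k : ℕ, g = f * a ^ k) →
      (∀ f ∈ F, a * f * a⁻¹ = f → f = 1) →
      (∀ x y : G, ((Subgroup.closure ({x, y} : Set G) : Subgroup G) : Set G).Finite) →
      ((∀ x y : G, Group.IsSolvable (Subgroup.closure ({x, y} : Set G))) ∨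
        ∃ r : ℕ, r.Prime ∧ ∀ f ∈ F, ∃ n : ℕ, orderOf f = r ^ n) →
      (∀ s : Finset G, (∀ x ∈ s, x ∈ F ∧ ∀ r : ℕ, r.Prime → r ∣ orderOf x → r % 7 = 1) →
        ((Subgroup.closure (s : Set G) : Subgroup G) : Set G).Finite) ∧
      ((∀ r : ℕ, r.Prime → r % 7 ≠ 1 → ∀ s : Finset G, (∀ x ∈ s, x ∈ F ∧ ∃ n : ℕ, orderOf x = r ^ n) →
          ((Subgroup.closure (s : Set G) : Subgroup G) : Set G).Finite) →
        ∀ s : Finset G, ((Subgroup.closure (s : Set G) : Subgroup G) : Set G).Finite) := by
  intro G _ F a hFn ha hgen hfpf hbin hsol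
  exact glue_p (by norm_num) (by norm_num) s2_seven G F a hFn ha hgen hfpf hbin hsol

end Pool.Agent.Results.MP_3e7e8f_al.OrderSevenPrimes
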